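import Pool.Agent.Helper32.FJL.Defs
import Pool.Agent.Helper46.FJL.Maurey

set_option autoImplicit false

/-!
FJL-3: existence of hard-wired signs `δ` such that `H diag(δ) H` is spread, by chaining over
Maurey nets.
-/

namespace Pool.Agent.FJL

open Finset Pool.Agent.Helper67.JL

namespace SpreadAux

/-- Variation of a coordinatewise product. -/
theorem incr_bound {I : Type} [Fintype I] (x x' y y' : I → ℝ) (w : ℝ)
    (h1 : ∀ s, |x s - x' s| ≤ w) (h2 : ∀ s, |y s - y' s| ≤ w)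
    (hy : ∑ s, y s ^ 2 ≤ 1) (hx' : ∑ s, x' s ^ 2 ≤ 1) :
    ∑ s, (x s * y s - x' s * y' s) ^ 2 ≤ 4 * w ^ 2 := by
  have h : ∀ s, (x s * y s - x' s * y' s) ^ 2 ≤ 2 * w ^ 2 * (y s ^ 2 + x' s ^ 2) := by
    intro s
    have e1 : (x s - x' s) ^ 2 ≤ w ^ 2 := by
      rw [← sq_abs (x s - x' s)]
      exact pow_le_pow_left₀ (abs_nonneg _) (h1 s) 2
    have e2 : (y s - y' s) ^ 2 ≤ w ^ 2 := by
      rw [← sq_abs (y s - y' s)]
      exact pow_le_pow_left₀ (abs_nonneg _) (h2 s) 2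
    have e3 : x s * y s - x' s * y' s = (x s - x' s) * y s + x' s * (y s - y' s) := by ring
    have e4 := mul_le_mul_of_nonneg_right e1 (sq_nonneg (y s))
    have e5 := mul_le_mul_of_nonneg_right e2 (sq_nonneg (x' s))
    rw [e3]
    nlinarith [sq_nonneg ((x s - x' s) * y s - x' s * (y s - y' s))]
  calc ∑ s, (x s * y s - x' s * y' s) ^ 2 ≤ ∑ s, 2 * w ^ 2 * (y s ^ 2 + x' s ^ 2) :=
        sum_le_sum fun s _ => h s
    _ = 2 * w ^ 2 * (∑ s, y s ^ 2 + ∑ s, x' s ^ 2) := by rw [← mul_sum, sum_add_distrib]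
    _ ≤ 2 * w ^ 2 * (1 + 1) := by gcongr
    _ = 4 * w ^ 2 := by ring

theorem end_bound {I : Type} [Fintype I] (c : I → ℝ) (δ : I → Bool) (w : ℝ)
    (hc : ∑ s, c s ^ 2 ≤ 4 * w ^ 2) :
    (∑ s, sg (δ s) * c s) ^ 2 ≤ Fintype.card I * (4 * w ^ 2) := by
  have h := sum_mul_sq_le_sq_mul_sq univ (fun s => sg (δ s)) c
  have h2 : ∑ s, sg (δ s) ^ 2 = (Fintype.card I : ℝ) := by
    simp [sg_sq]
  rw [h2] at h
  exact h.trans (mul_le_mul_of_nonneg_left hc (Nat.cast_nonneg _))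

/-- The nets. -/
theorem nets {I : Type} [Fintype I] [Nonempty I] (H : I → I → ℝ)
    (hH : ∀ i j, |H i j| ≤ 1 / Real.sqrt (Fintype.card I)) (n l : ℕ) :
    ∃ N : Finset (I → ℝ), (N.card : ℝ) ≤ (2 * Fintype.card I + 1) ^ (4 ^ l) ∧
      (∀ a ∈ N, ∑ i, a i ^ 2 ≤ 1 ∧ ∑ i, |a i| ≤ Real.sqrt n) ∧
      (l = 0 → N = {0}) ∧
      ∀ a : I → ℝ, ∑ i, a i ^ 2 ≤ 1 → ∑ i, |a i| ≤ Real.sqrt n →
        ∃ b ∈ N, ∀ j, |∑ i, H j i * (a i - b i)| ≤
        8 * Real.sqrt n * (1 / Real.sqrt (Fintype.card I)) *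
          Real.sqrt (Real.log (2 * Fintype.card I)) * (1 / 2) ^ l := by
  have hm : (1 : ℝ) ≤ Fintype.card I := by exact_mod_cast Fintype.card_pos
  have hm0 : (0 : ℝ) < Real.sqrt (Fintype.card I) := Real.sqrt_pos.mpr (by linarith)
  have hlog : (1 / 4 : ℝ) ≤ Real.log (2 * Fintype.card I) := by
    have h1 : Real.log 2 ≤ Real.log (2 * Fintype.card I) :=
      Real.log_le_log (by norm_num) (by linarith)
    have := Real.log_two_gt_d9
    linarith
  rcases Nat.eq_zero_or_pos l with rfl | hl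
  · refine ⟨{0}, ?_, ?_, fun _ => rfl, ?_⟩
    · simp only [card_singleton, Nat.cast_one, pow_zero, pow_one]
      linarith
    · intro a ha
      rw [mem_singleton] at ha
      subst ha
      simp
    · intro a _ ha1
      refine ⟨0, mem_singleton_self _, fun j => ?_⟩
      have h1 : |∑ i, H j i * (a i - (0 : I → ℝ) i)| ≤
          1 / Real.sqrt (Fintype.card I) * Real.sqrt n := by
        calc |∑ i, H j i * (a i - (0 : I → ℝ) i)| ≤ ∑ i, |H j i * (a i - (0 : I → ℝ) i)| :=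
              abs_sum_le_sum_abs _ _
          _ ≤ ∑ i, 1 / Real.sqrt (Fintype.card I) * |a i| := by
              apply sum_le_sum
              intro i _
              rw [abs_mul]
              simp only [Pi.zero_apply, sub_zero]
              exact mul_le_mul_of_nonneg_right (hH j i) (abs_nonneg _)
          _ = 1 / Real.sqrt (Fintype.card I) * ∑ i, |a i| := by rw [← mul_sum]
          _ ≤ _ := by gcongr
      refine h1.trans ?_
      have h2 : (1 / 2 : ℝ) ≤ Real.sqrt (Real.log (2 * Fintype.card I)) := by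
        apply Real.le_sqrt_of_sq_le
        linarith
      rw [pow_zero, mul_one]
      have h3 : 0 ≤ Real.sqrt n * (1 / Real.sqrt (Fintype.card I)) := by positivity
      nlinarith [mul_le_mul_of_nonneg_left h2 h3]
  · obtain ⟨N, h1, h2, h3⟩ := maurey_net H (1 / Real.sqrt (Fintype.card I)) (by positivity) hH
      {a : I → ℝ | ∑ i, a i ^ 2 ≤ 1 ∧ ∑ i, |a i| ≤ Real.sqrt n} (Real.sqrt n)
      (Real.sqrt_nonneg _) (fun a ha => ha.2) (4 ^ l) (Nat.one_le_pow _ _ (by norm_num))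
    refine ⟨N, h1, fun a ha => h2 ha, fun h => absurd h hl.ne', ?_⟩
    intro a ha ha'
    obtain ⟨b, hb, hb'⟩ := h3 a ⟨ha, ha'⟩
    refine ⟨b, hb, fun j => (hb' j).trans (le_of_eq ?_)⟩
    have h4 : Real.sqrt (Real.log (2 * Fintype.card I) / ((4 ^ l : ℕ) : ℝ)) =
        Real.sqrt (Real.log (2 * Fintype.card I)) * (1 / 2) ^ l := by
      rw [Real.sqrt_div (by linarith)]
      have : Real.sqrt ((4 ^ l : ℕ) : ℝ) = 2 ^ l := by
        rw [Nat.cast_pow]
        have : ((4 : ℕ) : ℝ) ^ l = (2 ^ l) ^ 2 := by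
          rw [← pow_mul, mul_comm, pow_mul]
          norm_num
        rw [this, Real.sqrt_sq (by positivity)]
      rw [this, one_div, inv_pow, div_eq_mul_inv]
    rw [h4]
    ring

/-- The union bound. -/
theorem union_bound {I : Type} [Fintype I] [DecidableEq I] {τ : Type} (m K : ℕ) (hm : 1 ≤ m)
    (hK : K ≤ 2 * m + 1) (T : ℕ → ℕ → Finset τ) (c : τ → I → ℝ) (V : ℕ → ℕ → ℝ)
    (hV : ∀ n l, 1 ≤ n → 0 < V n l) (hc : ∀ n l, ∀ q ∈ T n l, ∑ s, c q s ^ 2 ≤ V n l)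
    (hT : ∀ n l, ((T n l).card : ℝ) ≤ (2 * m + 1 : ℝ) ^ (4 * 4 ^ (l + 1))) :
    ∃ δ : I → Bool, ∀ n, 1 ≤ n → n ≤ m → ∀ l < K, ∀ q ∈ T n l,
      (∑ s, sg (δ s) * c q s) ^ 2 <
        2 * V n l * (8 * 4 ^ (l + 1) * Real.log (2 * m + 1)) := by
  have hm1 : (1 : ℝ) ≤ m := by exact_mod_cast hm
  set M : ℝ := 2 * m + 1 with hM
  have hM3 : 3 ≤ M := by linarith
  have hM0 : 0 < M := by linarith
  have hlogM : 0 ≤ Real.log M := Real.log_nonneg (by linarith)
  have key : pr (fun δ : I → Bool => ∃ n ∈ Icc 1 m, ∃ l ∈ range K, ∃ q ∈ T n l,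
      2 * V n l * (8 * 4 ^ (l + 1) * Real.log M) ≤ (∑ s, sg (δ s) * c q s) ^ 2) < 1 := by
    have hnl : ∀ n ∈ Icc 1 m, ∀ l ∈ range K, pr (fun δ : I → Bool => ∃ q ∈ T n l,
        2 * V n l * (8 * 4 ^ (l + 1) * Real.log M) ≤ (∑ s, sg (δ s) * c q s) ^ 2) ≤
        2 * (M ^ 16)⁻¹ := by
      intro n hn l _
      have hn1 : 1 ≤ n := (mem_Icc.mp hn).1
      have h1 := pr_exists_le_card_mul (Ω := I → Bool) (T n l) (fun q δ =>
        2 * V n l * (8 * 4 ^ (l + 1) * Real.log M) ≤ (∑ s, sg (δ s) * c q s) ^ 2)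
        (2 * Real.exp (-(8 * 4 ^ (l + 1) * Real.log M))) (by
          intro q hq
          exact hoeffding (c q) (V n l) _ (hV n l hn1) (by positivity) (hc n l q hq))
      refine h1.trans ?_
      have h2 : Real.exp (-(8 * 4 ^ (l + 1) * Real.log M)) = (M ^ (8 * 4 ^ (l + 1)))⁻¹ := by
        rw [Real.exp_neg, ← Real.rpow_natCast M (8 * 4 ^ (l + 1)), Real.rpow_def_of_pos hM0]
        congr 2
        push_cast
        ring
      rw [h2]
      have h3 : M ^ (8 * 4 ^ (l + 1)) = M ^ (4 * 4 ^ (l + 1)) * M ^ (4 * 4 ^ (l + 1)) := by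
        rw [← pow_add]
        congr 1
        ring
      rw [h3, mul_inv]
      have h4 : (M ^ (4 * 4 ^ (l + 1)))⁻¹ ≤ (M ^ 16)⁻¹ := by
        apply inv_anti₀ (by positivity)
        apply pow_le_pow_right₀ (by linarith)
        have : 4 ^ 1 ≤ 4 ^ (l + 1) := Nat.pow_le_pow_right (by norm_num) (by omega)
        omega
      have h5 : ((T n l).card : ℝ) * (M ^ (4 * 4 ^ (l + 1)))⁻¹ ≤ 1 := by
        rw [← div_eq_mul_inv, div_le_one (by positivity)]
        exact hT n l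
      calc ((T n l).card : ℝ) * (2 * ((M ^ (4 * 4 ^ (l + 1)))⁻¹ * (M ^ (4 * 4 ^ (l + 1)))⁻¹))
          = 2 * (((T n l).card : ℝ) * (M ^ (4 * 4 ^ (l + 1)))⁻¹) *
              (M ^ (4 * 4 ^ (l + 1)))⁻¹ := by ring
        _ ≤ 2 * 1 * (M ^ 16)⁻¹ := by gcongr
        _ = 2 * (M ^ 16)⁻¹ := by ring
    refine lt_of_le_of_lt (pr_exists_le (Ω := I → Bool) (Icc 1 m) (fun n δ =>
      ∃ l ∈ range K, ∃ q ∈ T n l,
      2 * V n l * (8 * 4 ^ (l + 1) * Real.log M) ≤ (∑ s, sg (δ s) * c q s) ^ 2)) ?_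
    have h2 : ∀ n ∈ Icc 1 m, pr (fun δ : I → Bool => ∃ l ∈ range K, ∃ q ∈ T n l,
        2 * V n l * (8 * 4 ^ (l + 1) * Real.log M) ≤ (∑ s, sg (δ s) * c q s) ^ 2) ≤
        K * (2 * (M ^ 16)⁻¹) := by
      intro n hn
      have := pr_exists_le_card_mul (Ω := I → Bool) (range K) (fun l δ => ∃ q ∈ T n l,
        2 * V n l * (8 * 4 ^ (l + 1) * Real.log M) ≤ (∑ s, sg (δ s) * c q s) ^ 2)
        (2 * (M ^ 16)⁻¹) (hnl n hn)
      rwa [card_range] at this
    refine lt_of_le_of_lt (sum_le_card_nsmul _ _ _ h2) ?_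
    rw [Nat.card_Icc, Nat.add_sub_cancel, nsmul_eq_mul]
    have hKM : (K : ℝ) ≤ M := by
      rw [hM]
      exact_mod_cast hK
    calc (m : ℝ) * (K * (2 * (M ^ 16)⁻¹)) ≤ M * (M * (M * (M ^ 16)⁻¹)) := by
          gcongr
          · linarith
          · linarith
      _ = (M ^ 13)⁻¹ := by
          field_simp
      _ < 1 := by
          apply inv_lt_one_of_one_lt₀
          apply one_lt_pow₀ (by linarith) (by norm_num)
  obtain ⟨δ, hδ⟩ := exists_not_of_pr_lt_one _ key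
  refine ⟨δ, fun n h1 h2 l hl q hq => ?_⟩
  by_contra hcon
  rw [not_lt] at hcon
  exact hδ ⟨n, mem_Icc.mpr ⟨h1, h2⟩, l, mem_range.mpr hl, q, hq, hcon⟩

/-- The chaining step: one sign vector works for all `n` and all `n`-sparse unit vectors. -/
theorem exists_signs {I : Type} [Fintype I] [DecidableEq I] [Nonempty I]
    (H : I → I → ℝ) (hH : ∀ i j, |H i j| ≤ 1 / Real.sqrt (Fintype.card I))
    (hop : ∀ x : I → ℝ, ∑ i, (∑ j, H i j * x j) ^ 2 ≤ ∑ j, x j ^ 2) :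
    ∃ δ : I → Bool, ∀ n : ℕ, 1 ≤ n → n ≤ Fintype.card I → ∀ a b : I → ℝ,
      ∑ i, a i ^ 2 ≤ 1 → ∑ i, |a i| ≤ Real.sqrt n →
      ∑ i, b i ^ 2 ≤ 1 → ∑ i, |b i| ≤ Real.sqrt n →
      |∑ s, sg (δ s) * ((∑ i, H s i * a i) * ∑ i, H s i * b i)| ≤
        440 * (Real.sqrt n * (1 / Real.sqrt (Fintype.card I))) *
          Real.log (2 * Fintype.card I) ^ 2 := by
  classical
  choose N hcard hsub hzero hnet using fun n l => nets H hH n l
  set m := Fintype.card I with hmdef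
  have hm' : 1 ≤ m := Fintype.card_pos
  have hm : (1 : ℝ) ≤ m := by exact_mod_cast hm'
  set η : ℝ := 1 / Real.sqrt m with hη
  have hsm : 0 < Real.sqrt m := Real.sqrt_pos.mpr (by linarith)
  have hη0 : 0 < η := by positivity
  set Λ := Real.log (2 * m) with hΛ
  have hlog2 : (69 / 100 : ℝ) ≤ Real.log 2 := by
    have := Real.log_two_gt_d9
    linarith
  have hΛ0 : (69 / 100 : ℝ) ≤ Λ := by
    have h1 : Real.log 2 ≤ Real.log (2 * m) :=
      Real.log_le_log (by norm_num) (by linarith)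
    linarith
  have hsΛ : 0 < Real.sqrt Λ := Real.sqrt_pos.mpr (by linarith)
  set u : ℕ → ℕ → ℝ := fun n l => 8 * Real.sqrt n * η * Real.sqrt Λ * (1 / 2) ^ l with hu
  set K := Nat.log 2 m + 1 with hK
  have hKm : m < 2 ^ K := Nat.lt_pow_succ_log_self (by norm_num) m
  have hKm' : K ≤ 2 * m + 1 := by
    have := Nat.log_le_self 2 m
    omega
  set c : ((I → ℝ) × (I → ℝ)) × ((I → ℝ) × (I → ℝ)) → I → ℝ := fun q s =>
    (∑ i, H s i * q.1.1 i) * (∑ i, H s i * q.2.1 i) -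
    (∑ i, H s i * q.1.2 i) * (∑ i, H s i * q.2.2 i) with hc
  set V : ℕ → ℕ → ℝ := fun n l => 4 * (3 * u n (l + 1)) ^ 2 with hV
  obtain ⟨δ, hδ⟩ := union_bound (I := I) m K hm' hKm' (fun n l =>
    (((N n (l + 1)) ×ˢ (N n l)) ×ˢ ((N n (l + 1)) ×ˢ (N n l))).filter
      (fun q => ∑ s, c q s ^ 2 ≤ V n l)) c V (by
        intro n l hn
        have hn' : (0 : ℝ) < Real.sqrt n := Real.sqrt_pos.mpr (by exact_mod_cast hn)
        simp only [hV, hu]
        positivity) (by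
        intro n l q hq
        exact (mem_filter.mp hq).2) (by
        intro n l
        refine le_trans (Nat.cast_le.mpr (card_filter_le _ _)) ?_
        rw [card_product, card_product]
        push_cast
        have hM1 : (1 : ℝ) ≤ 2 * m + 1 := by linarith
        have h1 := hcard n (l + 1)
        have h2 := hcard n l
        have h3 : (2 * (m : ℝ) + 1) ^ (4 ^ l) ≤ (2 * (m : ℝ) + 1) ^ (4 ^ (l + 1)) := by
          apply pow_le_pow_right₀ hM1
          exact Nat.pow_le_pow_right (by norm_num) (by omega)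
        have h4 : ((N n l).card : ℝ) ≤ (2 * (m : ℝ) + 1) ^ (4 ^ (l + 1)) := h2.trans h3
        calc ((N n (l + 1)).card : ℝ) * (N n l).card * ((N n (l + 1)).card * (N n l).card)
            ≤ (2 * (m : ℝ) + 1) ^ (4 ^ (l + 1)) * (2 * (m : ℝ) + 1) ^ (4 ^ (l + 1)) *
              ((2 * (m : ℝ) + 1) ^ (4 ^ (l + 1)) * (2 * (m : ℝ) + 1) ^ (4 ^ (l + 1))) := by
              gcongr
          _ = (2 * m + 1 : ℝ) ^ (4 * 4 ^ (l + 1)) := by
              rw [← pow_add, ← pow_add]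
              congr 1
              ring)
  refine ⟨δ, fun n hn1 hnm a b ha ha' hb hb' => ?_⟩
  choose π hπ hπ' using fun l => hnet n l a ha ha'
  choose ρ hρ hρ' using fun l => hnet n l b hb hb'
  have hn0 : (0 : ℝ) < Real.sqrt n := Real.sqrt_pos.mpr (by exact_mod_cast hn1)
  have hu0 : ∀ l, 0 ≤ u n l := fun l => by
    simp only [hu]
    positivity
  set x : ℕ → I → ℝ := fun l s => ∑ i, H s i * π l i with hx
  set y : ℕ → I → ℝ := fun l s => ∑ i, H s i * ρ l i with hy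
  set xa : I → ℝ := fun s => ∑ i, H s i * a i with hxa
  set yb : I → ℝ := fun s => ∑ i, H s i * b i with hyb
  have hxd : ∀ l s, |xa s - x l s| ≤ u n l := by
    intro l s
    have := hπ' l s
    simp only [hxa, hx, hu]
    rw [← sum_sub_distrib]
    simp_rw [← mul_sub]
    exact this
  have hyd : ∀ l s, |yb s - y l s| ≤ u n l := by
    intro l s
    have := hρ' l s
    simp only [hyb, hy, hu]
    rw [← sum_sub_distrib]
    simp_rw [← mul_sub]
    exact this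
  have hx1 : ∀ l, ∑ s, x l s ^ 2 ≤ 1 := fun l => (hop (π l)).trans (hsub n l _ (hπ l)).1
  have hy1 : ∀ l, ∑ s, y l s ^ 2 ≤ 1 := fun l => (hop (ρ l)).trans (hsub n l _ (hρ l)).1
  have hyb1 : ∑ s, yb s ^ 2 ≤ 1 := (hop b).trans hb
  set B : ℕ → ℝ := fun l => ∑ s, sg (δ s) * (x l s * y l s) with hB
  have hB0 : B 0 = 0 := by
    have h1 : π 0 = 0 := by
      have := hπ 0
      rw [hzero n 0 rfl, mem_singleton] at this
      exact this
    simp only [hB, hx, h1]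
    simp
  set R := Real.sqrt n * η with hR
  have hR0 : 0 ≤ R := by positivity
  -- one step
  have hstep : ∀ l < K, |B (l + 1) - B l| ≤ 272 * R * Λ := by
    intro l hl
    have hw : u n l + u n (l + 1) = 3 * u n (l + 1) := by
      simp only [hu, pow_succ]
      ring
    have hmem : ((π (l + 1), π l), (ρ (l + 1), ρ l)) ∈
        (((N n (l + 1)) ×ˢ (N n l)) ×ˢ ((N n (l + 1)) ×ˢ (N n l))).filter
          (fun q => ∑ s, c q s ^ 2 ≤ V n l) := by
      rw [mem_filter]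
      refine ⟨mem_product.mpr ⟨mem_product.mpr ⟨hπ _, hπ _⟩, mem_product.mpr ⟨hρ _, hρ _⟩⟩, ?_⟩
      have := incr_bound (x (l + 1)) (x l) (y (l + 1)) (y l) (3 * u n (l + 1)) (by
        intro s
        rw [← hw]
        have e1 := hxd l s
        have e2 := hxd (l + 1) s
        have e3 : x (l + 1) s - x l s = (xa s - x l s) - (xa s - x (l + 1) s) := by ring
        rw [e3]
        exact (abs_sub _ _).trans (add_le_add e1 e2)) (by
        intro s
        rw [← hw]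
        have e1 := hyd l s
        have e2 := hyd (l + 1) s
        have e3 : y (l + 1) s - y l s = (yb s - y l s) - (yb s - y (l + 1) s) := by ring
        rw [e3]
        exact (abs_sub _ _).trans (add_le_add e1 e2)) (hy1 _) (hx1 _)
      exact this
    have h1 := hδ n hn1 hnm l hl _ hmem
    have h2 : B (l + 1) - B l =
        ∑ s, sg (δ s) * c ((π (l + 1), π l), (ρ (l + 1), ρ l)) s := by
      simp only [hB, hc, hx, hy]
      rw [← sum_sub_distrib]
      apply sum_congr rfl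
      intro s _
      ring
    rw [h2]
    apply abs_le_of_sq_le_sq _ (by positivity)
    refine h1.le.trans ?_
    have hlM : Real.log (2 * m + 1) ≤ 2 * Λ := by
      have : (2 * (m : ℝ) + 1) ≤ (2 * m) ^ 2 := by nlinarith
      calc Real.log (2 * m + 1) ≤ Real.log ((2 * m) ^ 2) :=
            Real.log_le_log (by linarith) this
        _ = 2 * Λ := by
            rw [Real.log_pow]
            push_cast
            rfl
    have h3 : V n l = 2304 * R ^ 2 * Λ * (1 / 4) ^ (l + 1) := by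
      simp only [hV, hu, hR]
      have e1 : ((1 / 2 : ℝ) ^ (l + 1)) ^ 2 = (1 / 4) ^ (l + 1) := by
        rw [← pow_mul, mul_comm, pow_mul]
        norm_num
      have e2 : Real.sqrt Λ ^ 2 = Λ := Real.sq_sqrt (by linarith)
      calc 4 * (3 * (8 * Real.sqrt n * η * Real.sqrt Λ * (1 / 2) ^ (l + 1))) ^ 2
          = 2304 * (Real.sqrt n * η) ^ 2 * Real.sqrt Λ ^ 2 * ((1 / 2) ^ (l + 1)) ^ 2 := by ring
        _ = _ := by rw [e1, e2]
    have h4 : (1 / 4 : ℝ) ^ (l + 1) * 4 ^ (l + 1) = 1 := by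
      rw [← mul_pow]
      norm_num
    rw [h3]
    calc 2 * (2304 * R ^ 2 * Λ * (1 / 4) ^ (l + 1)) *
          (8 * 4 ^ (l + 1) * Real.log (2 * m + 1))
        = 36864 * R ^ 2 * Λ * Real.log (2 * m + 1) * ((1 / 4) ^ (l + 1) * 4 ^ (l + 1)) := by
          ring
      _ = 36864 * R ^ 2 * Λ * Real.log (2 * m + 1) := by rw [h4, mul_one]
      _ ≤ 36864 * R ^ 2 * Λ * (2 * Λ) := by
          apply mul_le_mul_of_nonneg_left hlM
          have : 0 ≤ Λ := by linarith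
          positivity
      _ ≤ (272 * R * Λ) ^ 2 := by nlinarith [sq_nonneg (R * Λ)]
  have htel : |B K| ≤ K * (272 * R * Λ) := by
    have h1 : B K = ∑ l ∈ range K, (B (l + 1) - B l) := by
      rw [sum_range_sub, hB0, sub_zero]
    rw [h1]
    refine (abs_sum_le_sum_abs _ _).trans ?_
    refine (sum_le_card_nsmul _ _ (272 * R * Λ) fun l hl => hstep l (mem_range.mp hl)).trans ?_
    rw [card_range, nsmul_eq_mul]
  have hend : |∑ s, sg (δ s) * (xa s * yb s) - B K| ≤ 16 * R * Real.sqrt Λ := by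
    have h1 : ∑ s, sg (δ s) * (xa s * yb s) - B K =
        ∑ s, sg (δ s) * (xa s * yb s - x K s * y K s) := by
      simp only [hB]
      rw [← sum_sub_distrib]
      apply sum_congr rfl
      intro s _
      ring
    rw [h1]
    apply abs_le_of_sq_le_sq _ (by positivity)
    have h2 := end_bound (fun s => xa s * yb s - x K s * y K s) δ (u n K)
      (incr_bound xa (x K) yb (y K) (u n K) (hxd K) (hyd K) hyb1 (hx1 K))
    refine h2.trans ?_
    have h3 : (m : ℝ) * (4 * u n K ^ 2) =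
        (16 * R * Real.sqrt Λ) ^ 2 * (m * ((1 / 2) ^ K) ^ 2) := by
      simp only [hu, hR]
      ring
    rw [h3]
    have h4 : (m : ℝ) * ((1 / 2) ^ K) ^ 2 ≤ 1 := by
      have e1 : (m : ℝ) ≤ 2 ^ K := by exact_mod_cast hKm.le
      have e2 : (1 : ℝ) ≤ 2 ^ K := one_le_pow₀ (by norm_num)
      have e3 : (1 / 2 : ℝ) ^ K * 2 ^ K = 1 := by
        rw [← mul_pow]
        norm_num
      have e4 : (0 : ℝ) ≤ ((1 / 2) ^ K) ^ 2 := by positivity
      have e5 : (1 / 2 : ℝ) ^ K ≤ 1 := pow_le_one₀ (by norm_num) (by norm_num)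
      calc (m : ℝ) * ((1 / 2) ^ K) ^ 2 ≤ 2 ^ K * ((1 / 2) ^ K) ^ 2 :=
            mul_le_mul_of_nonneg_right e1 e4
        _ = ((1 / 2) ^ K * 2 ^ K) * (1 / 2) ^ K := by ring
        _ ≤ 1 := by rw [e3, one_mul]; exact e5
    calc (16 * R * Real.sqrt Λ) ^ 2 * (m * ((1 / 2) ^ K) ^ 2)
        ≤ (16 * R * Real.sqrt Λ) ^ 2 * 1 := by gcongr
      _ = _ := mul_one _
  have hKΛ : (K : ℝ) ≤ 3 / 2 * Λ := by
    have h1 : 2 ^ (Nat.log 2 m) ≤ m := Nat.pow_log_le_self 2 (by omega)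
    have h2 : (K : ℝ) * Real.log 2 ≤ Λ := by
      rw [hΛ, Real.log_mul (by norm_num) (by linarith), hK]
      push_cast
      have h3 : (Nat.log 2 m : ℝ) * Real.log 2 ≤ Real.log m := by
        rw [← Real.log_pow]
        apply Real.log_le_log (by positivity)
        exact_mod_cast h1
      linarith
    nlinarith [(Nat.cast_nonneg K : (0 : ℝ) ≤ K)]
  have hsqΛ : Real.sqrt Λ ≤ 2 * Λ ^ 2 := by
    have e1 : Real.sqrt Λ ^ 2 = Λ := Real.sq_sqrt (by linarith)
    nlinarith [sq_nonneg (Real.sqrt Λ - 1)]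
  have hfin : |∑ s, sg (δ s) * (xa s * yb s)| ≤
      16 * R * Real.sqrt Λ + K * (272 * R * Λ) := by
    have e : ∑ s, sg (δ s) * (xa s * yb s) =
        (∑ s, sg (δ s) * (xa s * yb s) - B K) + B K := by ring
    rw [e]
    exact (abs_add_le _ _).trans (add_le_add hend htel)
  refine hfin.trans ?_
  have e1 : 16 * R * Real.sqrt Λ ≤ 16 * R * (2 * Λ ^ 2) := by gcongr
  have hΛ1 : 0 ≤ Λ := by linarith
  have e2 : (K : ℝ) * (272 * R * Λ) ≤ 3 / 2 * Λ * (272 * R * Λ) := by gcongr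
  calc 16 * R * Real.sqrt Λ + K * (272 * R * Λ)
      ≤ 16 * R * (2 * Λ ^ 2) + 3 / 2 * Λ * (272 * R * Λ) := add_le_add e1 e2
    _ = 440 * R * Λ ^ 2 := by ring

/-- `ℓ¹` norm of a sparse vector. -/
theorem l1_le {I : Type} [Fintype I] [DecidableEq I] (x : I → ℝ) (Q : Finset I) (n : ℕ)
    (hQ : Q.card ≤ n) (hx : ∀ i ∉ Q, x i = 0) (h1 : ∑ i, x i ^ 2 ≤ 1) :
    ∑ i, |x i| ≤ Real.sqrt n := by
  apply Real.le_sqrt_of_sq_le
  have e1 : ∑ i, |x i| = ∑ i ∈ Q, |x i| := by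
    symm
    apply sum_subset (subset_univ _)
    intro i _ hi
    rw [hx i hi, abs_zero]
  have e2 : ∑ i ∈ Q, x i ^ 2 ≤ 1 := by
    refine le_trans ?_ h1
    exact sum_le_sum_of_subset_of_nonneg (subset_univ _) fun i _ _ => sq_nonneg _
  rw [e1]
  calc (∑ i ∈ Q, |x i|) ^ 2 ≤ Q.card * ∑ i ∈ Q, |x i| ^ 2 := sq_sum_le_card_mul_sum_sq
    _ = Q.card * ∑ i ∈ Q, x i ^ 2 := by simp_rw [sq_abs]
    _ ≤ n * 1 := by
        apply mul_le_mul _ e2 (sum_nonneg fun i _ => sq_nonneg _) (Nat.cast_nonneg _)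
        exact_mod_cast hQ
    _ = n := mul_one _

/-- Homogeneous form of the bilinear bound. -/
theorem bilin_le {I : Type} [Fintype I] [DecidableEq I] (H : I → I → ℝ) (δ : I → Bool) (n : ℕ)
    (C : ℝ)
    (h : ∀ a b : I → ℝ, ∑ i, a i ^ 2 ≤ 1 → ∑ i, |a i| ≤ Real.sqrt n →
      ∑ i, b i ^ 2 ≤ 1 → ∑ i, |b i| ≤ Real.sqrt n →
      |∑ s, sg (δ s) * ((∑ i, H s i * a i) * ∑ i, H s i * b i)| ≤ C)
    (Q T : Finset I) (hQ : Q.card ≤ n) (hT : T.card ≤ n) (a b : I → ℝ)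
    (ha : ∀ i ∉ T, a i = 0) (hb : ∀ i ∉ Q, b i = 0) :
    (∑ s, sg (δ s) * ((∑ i, H s i * a i) * ∑ i, H s i * b i)) ^ 2 ≤
      C ^ 2 * (∑ i, a i ^ 2) * ∑ i, b i ^ 2 := by
  have hnn : ∀ x : I → ℝ, 0 ≤ ∑ i, x i ^ 2 := fun x => sum_nonneg fun i _ => sq_nonneg _
  have hzero : ∀ x : I → ℝ, ∑ i, x i ^ 2 = 0 → ∀ i, x i = 0 := by
    intro x hx i
    have := (sum_eq_zero_iff_of_nonneg (fun i _ => sq_nonneg (x i))).mp hx i (mem_univ _)
    exact pow_eq_zero_iff (two_ne_zero) |>.mp this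
  rcases (hnn a).eq_or_lt with h0 | ha0
  · have := hzero a h0.symm
    simp [this]
  rcases (hnn b).eq_or_lt with h0 | hb0
  · have := hzero b h0.symm
    simp [this]
  set α := Real.sqrt (∑ i, a i ^ 2) with hα
  set β := Real.sqrt (∑ i, b i ^ 2) with hβ
  have hα0 : 0 < α := Real.sqrt_pos.mpr ha0
  have hβ0 : 0 < β := Real.sqrt_pos.mpr hb0
  have hα2 : α ^ 2 = ∑ i, a i ^ 2 := Real.sq_sqrt (hnn a)
  have hβ2 : β ^ 2 = ∑ i, b i ^ 2 := Real.sq_sqrt (hnn b)
  have hn1 : ∀ (x : I → ℝ) (c : ℝ), 0 < c → c ^ 2 = ∑ i, x i ^ 2 →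
      ∑ i, (c⁻¹ * x i) ^ 2 ≤ 1 := by
    intro x c hc hcx
    simp_rw [mul_pow]
    rw [← mul_sum, ← hcx, ← mul_pow, inv_mul_cancel₀ hc.ne', one_pow]
  have h1 := hn1 a α hα0 hα2
  have h2 := hn1 b β hβ0 hβ2
  have h3 := h (fun i => α⁻¹ * a i) (fun i => β⁻¹ * b i) h1
    (l1_le _ T n hT (fun i hi => by simp [ha i hi]) h1) h2
    (l1_le _ Q n hQ (fun i hi => by simp [hb i hi]) h2)
  have h4 : ∑ s, sg (δ s) * ((∑ i, H s i * (α⁻¹ * a i)) * ∑ i, H s i * (β⁻¹ * b i)) =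
      (α * β)⁻¹ * ∑ s, sg (δ s) * ((∑ i, H s i * a i) * ∑ i, H s i * b i) := by
    rw [mul_sum]
    apply sum_congr rfl
    intro s _
    have e1 : ∑ i, H s i * (α⁻¹ * a i) = α⁻¹ * ∑ i, H s i * a i := by
      rw [mul_sum]
      exact sum_congr rfl fun i _ => by ring
    have e2 : ∑ i, H s i * (β⁻¹ * b i) = β⁻¹ * ∑ i, H s i * b i := by
      rw [mul_sum]
      exact sum_congr rfl fun i _ => by ring
    rw [e1, e2, mul_inv]
    ring
  rw [h4, abs_mul, abs_of_pos (by positivity), inv_mul_le_iff₀ (by positivity)] at h3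
  calc (∑ s, sg (δ s) * ((∑ i, H s i * a i) * ∑ i, H s i * b i)) ^ 2
      = |∑ s, sg (δ s) * ((∑ i, H s i * a i) * ∑ i, H s i * b i)| ^ 2 := (sq_abs _).symm
    _ ≤ (α * β * C) ^ 2 := pow_le_pow_left₀ (abs_nonneg _) h3 2
    _ = C ^ 2 * α ^ 2 * β ^ 2 := by ring
    _ = _ := by rw [hα2, hβ2]

end SpreadAux

open SpreadAux in
theorem exists_spread : ∃ C₀ : ℝ, 1 ≤ C₀ ∧ ∀ (I : Type) [Fintype I] [DecidableEq I] [Nonempty I]
    (H : I → I → ℝ), (∀ i j, H i j ^ 2 ≤ 1 / (Fintype.card I : ℝ)) → (∀ i j, H i j = H j i) →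
    (∀ x : I → ℝ, ∑ i, (∑ j, H i j * x j) ^ 2 ≤ ∑ j, x j ^ 2) →
    ∃ δ : I → Bool, Spread (C₀ * Real.log (2 * Fintype.card I) ^ 4)
      (fun i j => ∑ l, H i l * (sg (δ l) * H l j)) := by
  refine ⟨440 ^ 2, by norm_num, ?_⟩
  intro I _ _ _ H h1 hsym hop
  have hm : (1 : ℝ) ≤ Fintype.card I := by exact_mod_cast Fintype.card_pos
  have hH' : ∀ i j, |H i j| ≤ 1 / Real.sqrt (Fintype.card I) := by
    intro i j
    apply abs_le_of_sq_le_sq _ (by positivity)
    rw [div_pow, one_pow, Real.sq_sqrt (by linarith)]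
    exact h1 i j
  obtain ⟨δ, hδ⟩ := exists_signs H hH' hop
  refine ⟨δ, ?_⟩
  intro Q T a
  set m := Fintype.card I with hmdef
  set Λ := Real.log (2 * m) with hΛ
  have hRHS : 0 ≤ 440 ^ 2 * Λ ^ 4 * max (Q.card : ℝ) (T.card : ℝ) / (m : ℝ) *
      ∑ j ∈ T, a j ^ 2 := by
    have : 0 ≤ ∑ j ∈ T, a j ^ 2 := sum_nonneg fun i _ => sq_nonneg _
    positivity
  set n := max Q.card T.card with hn
  rcases Nat.eq_zero_or_pos n with hn0 | hn1
  · have hQ : Q = ∅ := by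
      rw [← card_eq_zero]
      have : Q.card ≤ n := le_max_left _ _
      omega
    subst hQ
    simp only [sum_empty]
    exact hRHS
  have hnm : n ≤ m := max_le (card_le_univ _) (card_le_univ _)
  set a' : I → ℝ := fun j => if j ∈ T then a j else 0 with ha'
  set v : I → ℝ := fun i => ∑ j ∈ T, (∑ l, H i l * (sg (δ l) * H l j)) * a j with hv
  set b : I → ℝ := fun i => if i ∈ Q then v i else 0 with hb
  have h2 := bilin_le H δ n _ (fun x y => hδ n hn1 hnm x y) Q T (le_max_left _ _)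
    (le_max_right _ _) a' b (fun i hi => by simp [ha', hi]) (fun i hi => by simp [hb, hi])
  have h3 : ∑ i, a' i ^ 2 = ∑ j ∈ T, a j ^ 2 := by
    simp only [ha', ite_pow, ne_eq, OfNat.ofNat_ne_zero, not_false_eq_true, zero_pow,
      sum_ite_mem, univ_inter]
  have h4 : ∑ i, b i ^ 2 = ∑ i ∈ Q, v i ^ 2 := by
    simp only [hb, ite_pow, ne_eq, OfNat.ofNat_ne_zero, not_false_eq_true, zero_pow,
      sum_ite_mem, univ_inter]
  have h5 : ∑ s, sg (δ s) * ((∑ i, H s i * a' i) * ∑ i, H s i * b i) = ∑ i ∈ Q, v i ^ 2 := by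
    rw [← h4]
    have e1 : ∀ i, v i = ∑ l, H i l * (sg (δ l) * ∑ j, H l j * a' j) := by
      intro i
      simp only [hv, ha', mul_ite, mul_zero, sum_ite_mem, univ_inter]
      simp_rw [sum_mul, mul_sum]
      rw [sum_comm]
      apply sum_congr rfl
      intro l _
      apply sum_congr rfl
      intro j _
      ring
    have e2 : ∀ i, b i ^ 2 = b i * v i := by
      intro i
      simp only [hb]
      split_ifs
      · ring
      · ring
    have e3 : ∀ (c : I → ℝ), ∑ s, sg (δ s) * (c s * ∑ i, H s i * b i) =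
        ∑ i, b i * ∑ s, H i s * (sg (δ s) * c s) := by
      intro c
      simp_rw [mul_sum]
      rw [sum_comm]
      apply sum_congr rfl
      intro i _
      apply sum_congr rfl
      intro s _
      rw [hsym s i]
      ring
    rw [e3]
    apply sum_congr rfl
    intro i _
    rw [e2, e1]
  rw [h3, h4, h5] at h2
  set W := ∑ i ∈ Q, v i ^ 2 with hW
  have hW0 : 0 ≤ W := sum_nonneg fun i _ => sq_nonneg _
  have h6 : (440 * (Real.sqrt n * (1 / Real.sqrt m)) * Λ ^ 2) ^ 2 =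
      440 ^ 2 * Λ ^ 4 * max (Q.card : ℝ) (T.card : ℝ) / (m : ℝ) := by
    have e1 : Real.sqrt n ^ 2 = n := Real.sq_sqrt (Nat.cast_nonneg _)
    have e2 : Real.sqrt m ^ 2 = m := Real.sq_sqrt (Nat.cast_nonneg _)
    have e3 : (n : ℝ) = max (Q.card : ℝ) (T.card : ℝ) := by
      rw [hn]
      push_cast
      rfl
    rw [← e3]
    calc (440 * (Real.sqrt n * (1 / Real.sqrt m)) * Λ ^ 2) ^ 2
        = 440 ^ 2 * Λ ^ 4 * (Real.sqrt n ^ 2) / (Real.sqrt m ^ 2) := by
          rw [one_div]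
          ring
      _ = _ := by rw [e1, e2]
  rw [h6] at h2
  rcases hW0.eq_or_lt with h0 | hWpos
  · rw [← h0]
    exact hRHS
  · have h7 : W * W ≤ (440 ^ 2 * Λ ^ 4 * max (Q.card : ℝ) (T.card : ℝ) / (m : ℝ) *
      ∑ j ∈ T, a j ^ 2) * W := by
      rw [← sq]
      exact h2
    exact le_of_mul_le_mul_right h7 hWpos

end Pool.Agent.FJL
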